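import Pool.Agent.X163.AN

/-!
# The Alperin–McKay–Navarro conjecture with an additive error term

Let `p` be a prime and `M` a maximal ideal over `p` of the ring of all algebraic integers in `ℂ`.
* For `χ ∈ Irr(G)` let `om χ g` be the scalar by which the sum of the conjugates of `g` acts. Two irreducible characters are
  in the same `p`-block if and only if their `om` are congruent modulo `M`. So `Blk M (om ψ)` is the block of `ψ`.
* For a `p`-subgroup `D` and `ψ ∈ Irr(N_G(D))` let `lam D ψ g` be the scalar by which the sum of the elements of `C_G(D)`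
  conjugate to `g` acts. If the block `b` of `ψ` has defect group `D`, then `Blk M (lam D ψ)` is the block `B` of `G` with
  Brauer correspondent `b` (`IsDatum` says that `D` is a `p`-group and a defect group of `b`).
* The characters of height zero are those in the block whose degree has the smallest `p`-part (`H0`). So
  `x.kG K` and `x.kN K` are, for `x = (G, D, ψ)`, the numbers of characters in `Irr_0(B)` and `Irr_0(b)` which are
  fixed by the field automorphisms in `K`.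
* `HB x` is the set of the automorphisms of `ℂ` which act on the roots of unity of order prime to `p` by
  `ξ ↦ ξ^(p^e)` for some `e ≥ 0` and preserve `Irr(B)`; it acts through `𝓗_B`. `HB1 x` is the set of those elements of
  `HB x` which fix the `p`-th roots of unity. For `p = 2` it is equal to `HB x`. A bijection `Irr_0(B) → Irr_0(b)` which
  commutes with `HB1 x` exists if and only if `x.kG K = x.kN K` for all `K ⊆ HB1 x` (Burnside).

Theorem. Let `P` be a class of data `(G, D, b)` closed under direct products with the cyclic group of order `p`,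
`(G, D, b) ↦ (G × C_p, D × C_p, b ⊗ ℤC_p)`. Then `x.kG K = x.kN K` for all `x` in `P` and `K ⊆ HB1 x` if and only if
`x.kG K = (1 + o(1)) x.kN K + o(|D|)`, uniformly in `K ⊆ HB1 x`, for `x` in `P` with `|D| → ∞`. The same for the two
inequalities.
-/

set_option autoImplicit false

namespace Pool.Agent.Results.MP_7f1e7e_al.Additive

open Pool.Agent.X27.Chr Pool.Agent.Results.MP_7f1e7e_al.Asymptotic

variable {p : ℕ} [hp : Fact p.Prime] {M : Ideal (integralClosure ℤ ℂ)}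

/-- Closed under direct products with the cyclic group of order `p`. -/
def CpClosed (P : Dat p M → Prop) : Prop := ∀ x, P x → P (x.cyc 1)

/-- The elements of `HB x` which fix the `p`-th roots of unity. -/
def HB1 (x : Dat p M) : Set (ℂ ≃+* ℂ) := {τ | τ ∈ HB x ∧ ∀ z : ℂ, z ^ p = 1 → τ z = z}

theorem powers (hM : M.IsPrime) (hpM : (p : integralClosure ℤ ℂ) ∈ M) (P : Dat p M → Prop) (hP : CpClosed P)
    (K : Set (ℂ ≃+* ℂ)) (x : Dat p M) (hx : P x) (hK : K ⊆ HB1 x) (n : ℕ) :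
    ∃ y : Dat p M, P y ∧ K ⊆ HB1 y ∧ Nat.card y.D = Nat.card x.D * p ^ n ∧ y.kG K = x.kG K * p ^ n ∧
      y.kN K = x.kN K * p ^ n := by
  induction n with
  | zero => exact ⟨x, hx, hK, by simp, by simp, by simp⟩
  | succ n ih =>
    obtain ⟨y, h1, h2, h3, h4, h5⟩ := ih
    have hf : ∀ τ ∈ K, ∀ z : ℂ, z ^ p = 1 → τ z = z := fun τ hτ => (h2 hτ).2
    refine ⟨y.cyc 1, hP y h1, fun τ hτ => ⟨Pool.Agent.X163.AN.hb_cyc hM hpM y (h2 hτ).1, (h2 hτ).2⟩, ?_, ?_, ?_⟩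
    · have h6 : Nat.card (y.cyc 1).D = Nat.card y.D * p ^ 1 := Dat.card_mul y _ _
      rw [h6, h3, mul_assoc, pow_one, pow_succ]
    · rw [Pool.Agent.X163.AN.kG_cyc hM hpM y hf, h4, mul_assoc, pow_succ]
    · rw [Pool.Agent.X163.AN.kN_cyc hM hpM y hf, h5, mul_assoc, pow_succ]

theorem le_of_small (hM : M.IsPrime) (hl : (p : integralClosure ℤ ℂ) ∈ M) (P : Dat p M → Prop)
    (hP : CpClosed P) (s : ℝ)
    (h : ∀ ε : ℝ, 0 < ε → ∃ N : ℕ, ∀ x, P x → N ≤ Nat.card x.D → ∀ K, K ⊆ HB1 x →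
      s * ((x.kG K : ℝ) - x.kN K) ≤ ε * (x.kG K + x.kN K + Nat.card x.D))
    (x : Dat p M) (hx : P x) (K : Set (ℂ ≃+* ℂ)) (hK : K ⊆ HB1 x) : s * ((x.kG K : ℝ) - x.kN K) ≤ 0 := by
  by_contra hlt
  push Not at hlt
  have hD : (0 : ℝ) < Nat.card x.D := by exact_mod_cast Nat.card_pos
  have hb : (0 : ℝ) ≤ x.kG K := Nat.cast_nonneg _
  have hB : (0 : ℝ) ≤ x.kN K := Nat.cast_nonneg _
  have hT : (0 : ℝ) < x.kG K + x.kN K + Nat.card x.D := by linarith
  obtain ⟨N, hN⟩ := h (s * ((x.kG K : ℝ) - x.kN K) / (2 * (x.kG K + x.kN K + Nat.card x.D))) (by positivity)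
  have hpos : (0 : ℝ) < (p : ℝ) ^ N := pow_pos (by exact_mod_cast hp.out.pos) _
  obtain ⟨y, h1, h2, h3, h4, h5⟩ := powers hM hl P hP K x hx hK N
  have h6 := hN y h1 (by
    rw [h3]
    calc N ≤ p ^ N := (Nat.lt_pow_self hp.out.one_lt).le
      _ ≤ Nat.card x.D * p ^ N := Nat.le_mul_of_pos_left _ Nat.card_pos) K h2
  rw [h3, h4, h5] at h6
  push_cast at h6
  have h7 : s * ((x.kG K : ℝ) - x.kN K) / (2 * ((x.kG K : ℝ) + x.kN K + Nat.card x.D)) *
      ((x.kG K : ℝ) * (p : ℝ) ^ N + (x.kN K : ℝ) * (p : ℝ) ^ N + (Nat.card x.D : ℝ) * (p : ℝ) ^ N) =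
      s * ((x.kG K : ℝ) - x.kN K) / 2 * (p : ℝ) ^ N := by
    rw [← add_mul, ← add_mul]
    field_simp
  rw [h7, ← sub_mul, ← mul_assoc] at h6
  have h8 := le_of_mul_le_mul_right h6 hpos
  linarith

theorem result (p : ℕ) (hp : Fact p.Prime) (M : Ideal (integralClosure ℤ ℂ)) (hM : M.IsMaximal)
    (hl : (p : integralClosure ℤ ℂ) ∈ M) (P : Dat p M → Prop) (hP : CpClosed P) :
    ((∀ x, P x → ∀ K, K ⊆ HB1 x → x.kG K ≤ x.kN K) ↔ ∀ ε : ℝ, 0 < ε → ∃ N : ℕ, ∀ x, P x → N ≤ Nat.card x.D →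
      ∀ K, K ⊆ HB1 x → (x.kG K : ℝ) ≤ (1 + ε) * x.kN K + ε * Nat.card x.D) ∧
    ((∀ x, P x → ∀ K, K ⊆ HB1 x → x.kN K ≤ x.kG K) ↔ ∀ ε : ℝ, 0 < ε → ∃ N : ℕ, ∀ x, P x → N ≤ Nat.card x.D →
      ∀ K, K ⊆ HB1 x → (x.kN K : ℝ) ≤ (1 + ε) * x.kG K + ε * Nat.card x.D) ∧
    ((∀ x, P x → ∀ K, K ⊆ HB1 x → x.kG K = x.kN K) ↔ ∀ ε : ℝ, 0 < ε → ∃ N : ℕ, ∀ x, P x → N ≤ Nat.card x.D →
      ∀ K, K ⊆ HB1 x → |(x.kG K : ℝ) - x.kN K| ≤ ε * (x.kN K + Nat.card x.D)) ∧
    (p = 2 → ∀ x : Dat p M, HB1 x = HB x) := by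
  have e1 : ∀ (x : Dat p M) (K : Set (ℂ ≃+* ℂ)) (ε : ℝ), 0 < ε → 0 ≤ ε * (x.kG K : ℝ) :=
    fun x K ε hε => mul_nonneg hε.le (Nat.cast_nonneg _)
  have e2 : ∀ (x : Dat p M) (K : Set (ℂ ≃+* ℂ)) (ε : ℝ), 0 < ε → 0 ≤ ε * (x.kN K : ℝ) :=
    fun x K ε hε => mul_nonneg hε.le (Nat.cast_nonneg _)
  have one : ∀ (x : Dat p M) (ε : ℝ), 0 < ε → 0 ≤ ε * Nat.card x.D := fun x ε hε => by positivity
  have a1 : (∀ ε : ℝ, 0 < ε → ∃ N : ℕ, ∀ x, P x → N ≤ Nat.card x.D →
      ∀ K, K ⊆ HB1 x → (x.kG K : ℝ) ≤ (1 + ε) * x.kN K + ε * Nat.card x.D) →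
      ∀ x, P x → ∀ K, K ⊆ HB1 x → x.kG K ≤ x.kN K := by
    intro h x hx K hK
    have := le_of_small hM.isPrime hl P hP 1 (fun ε hε => by
      obtain ⟨N, hN⟩ := h ε hε
      exact ⟨N, fun x hx hD K hK => by
        have h1 := hN x hx hD K hK
        have h2 := e1 x K ε hε
        nlinarith⟩) x hx K hK
    have h2 : (x.kG K : ℝ) ≤ x.kN K := by linarith
    exact_mod_cast h2
  have a2 : (∀ ε : ℝ, 0 < ε → ∃ N : ℕ, ∀ x, P x → N ≤ Nat.card x.D →
      ∀ K, K ⊆ HB1 x → (x.kN K : ℝ) ≤ (1 + ε) * x.kG K + ε * Nat.card x.D) →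
      ∀ x, P x → ∀ K, K ⊆ HB1 x → x.kN K ≤ x.kG K := by
    intro h x hx K hK
    have := le_of_small hM.isPrime hl P hP (-1) (fun ε hε => by
      obtain ⟨N, hN⟩ := h ε hε
      exact ⟨N, fun x hx hD K hK => by
        have h1 := hN x hx hD K hK
        have h2 := e2 x K ε hε
        nlinarith⟩) x hx K hK
    have h2 : (x.kN K : ℝ) ≤ x.kG K := by linarith
    exact_mod_cast h2
  refine ⟨⟨fun h ε hε => ⟨0, fun x hx _ K hK => ?_⟩, a1⟩, ⟨fun h ε hε => ⟨0, fun x hx _ K hK => ?_⟩, a2⟩,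
    ⟨fun h ε hε => ⟨0, fun x hx _ K hK => ?_⟩, fun h x hx K hK => le_antisymm (a1 (fun ε hε => ?_) x hx K hK) ?_⟩, ?_⟩
  · have h1 : (x.kG K : ℝ) ≤ x.kN K := by exact_mod_cast h x hx K hK
    have h2 := one x ε hε
    have h3 := e2 x K ε hε
    linarith
  · have h1 : (x.kN K : ℝ) ≤ x.kG K := by exact_mod_cast h x hx K hK
    have h2 := one x ε hε
    have h3 := e1 x K ε hε
    linarith
  · rw [h x hx K hK, sub_self, abs_zero, mul_add]
    exact add_nonneg (e2 x K ε hε) (one x ε hε)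
  · obtain ⟨N, hN⟩ := h ε hε
    exact ⟨N, fun x hx hD K hK => by have := abs_le.1 (hN x hx hD K hK); linarith⟩
  · have h3 := le_of_small hM.isPrime hl P hP (-1) (fun ε hε => by
      obtain ⟨N, hN⟩ := h ε hε
      exact ⟨N, fun x hx hD K hK => by
        have h1 := abs_le.1 (hN x hx hD K hK)
        have h2 := e1 x K ε hε
        linarith⟩) x hx K hK
    have h4 : (x.kN K : ℝ) ≤ x.kG K := by linarith
    exact_mod_cast h4
  · rintro rfl x
    ext τ
    refine ⟨fun h => h.1, fun h => ⟨h, fun z hz => ?_⟩⟩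
    rcases mul_self_eq_one_iff.1 ((pow_two z).symm.trans hz) with rfl | rfl
    · exact map_one τ
    · rw [map_neg, map_one]

end Pool.Agent.Results.MP_7f1e7e_al.Additive
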