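import Pool.Agent.X163.AB2

/-!
# The Alperin–McKay–Navarro conjecture for odd primes: almost all blocks suffice

Let `p` be an odd prime and `M` a maximal ideal over `p` of the ring of all algebraic integers in `ℂ`.
* For `χ ∈ Irr(G)` let `om χ g` be the scalar by which the sum of the conjugates of `g` acts. Two irreducible characters are
  in the same `p`-block if and only if their `om` are congruent modulo `M`. So `Blk M (om ψ)` is the block of `ψ`.
* For a `p`-subgroup `D` and `ψ ∈ Irr(N_G(D))` let `lam D ψ g` be the scalar by which the sum of the elements of `C_G(D)`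
  conjugate to `g` acts. If the block `b` of `ψ` has defect group `D`, then `Blk M (lam D ψ)` is the block `B` of `G` with
  Brauer correspondent `b` (`IsDatum` says that `D` is a `p`-group and a defect group of `b`).
* `x.kG K` and `x.kN K` are, for `x = (G, D, ψ)` (`Pr.dat`), the numbers of characters in `Irr_0(B)` and `Irr_0(b)` which are
  fixed by the field automorphisms in `K`.
* `HB x` is the set of the automorphisms of `ℂ` which act on the roots of unity of order prime to `p` by
  `ξ ↦ ξ^(p^e)` for some `e ≥ 0` and preserve `Irr(B)`; it acts through `𝓗_B`. An `𝓗_B`-equivariant bijection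
  `Irr_0(B) → Irr_0(b)` exists if and only if `x.kG K = x.kN K` for all `K ⊆ HB x` (Burnside).
* `AMN p M (G, D)`: this holds for all blocks `B` of `G` with defect group `D`. `badN p M (G, D)` is the number of the blocks
  `B` of `G` with defect group `D` for which it fails (counted by their Brauer correspondents `b`, as sets of characters).

Theorem. Let `P` be a class of pairs `(G, D)` closed under `(G, D) ↦ (G × C₂, D × 1)`. Then the conjecture of Alperin,
McKay and Navarro holds for all blocks with defect group `D` for all `(G, D)` in `P` if and only if for every `ε > 0` and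
every `d` the number of the blocks of `G` with defect group `D` for which it fails is at most `ε |G|` for all `(G, D)` in `P`
with `|D| = d` and `|G|` large.
-/

set_option autoImplicit false

namespace Pool.Agent.Results.MP_7f1e7e_al.AlmostAllBlocks

open Pool.Agent.X27.Chr Pool.Agent.X163.AB

theorem result (p : ℕ) (hp : Fact p.Prime) (hp2 : p ≠ 2) (M : Ideal (integralClosure ℤ ℂ)) (hM : M.IsMaximal)
    (hpM : (p : integralClosure ℤ ℂ) ∈ M) (P : Pr → Prop) (hP : ∀ x, P x → P (x.mul 2)) :
    (∀ x, P x → AMN p M x) ↔ ∀ ε : ℝ, 0 < ε → ∀ d : ℕ, ∃ N : ℕ, ∀ x, P x → Nat.card x.D = d →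
      N ≤ Nat.card x.G → (badN p M x : ℝ) ≤ ε * Nat.card x.G :=
  mainN hM.isPrime hpM (fun h => hp2 ((Nat.prime_dvd_prime_iff_eq hp.out Nat.prime_two).1 h)) P hP

end Pool.Agent.Results.MP_7f1e7e_al.AlmostAllBlocks
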