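import Pool.Agent.X27.Chr.AM

/-!
# The Alperin–McKay–Navarro conjecture and its asymptotic form

Let `p` be a prime and `M` a maximal ideal over `p` of the ring of all algebraic integers in `ℂ`.
* For `χ ∈ Irr(G)` let `om χ g` be the scalar by which the sum of the conjugates of `g` acts. Two irreducible characters are
  in the same `p`-block if and only if their `om` are congruent modulo `M`. So `Blk M (om ψ)` is the block of `ψ`.
* For a `p`-subgroup `D` and `ψ ∈ Irr(N_G(D))` let `lam D ψ g` be the scalar by which the sum of the elements of `C_G(D)`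
  conjugate to `g` acts. If the block `b` of `ψ` has defect group `D`, then `Blk M (lam D ψ)` is the block `B` of `G` with
  Brauer correspondent `b`. As `D` is a normal subgroup of `N_G(D)`, the block of `ψ` has defect group `D` if and only
  if the characters of height zero `φ` in it satisfy `φ(1)_p |D| = |N_G(D)|_p` (`IsDatum`).
* The characters of height zero are those in the block whose degree has the smallest `p`-part (`H0`). So
  `x.kG K` and `x.kN K` are, for `x = (G, D, ψ)`, the numbers of characters in `Irr_0(B)` and `Irr_0(b)` which are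
  fixed by the field automorphisms in `K`.
* `HB x` is the set of the automorphisms of `ℂ` which act on the roots of unity of order prime to `p` by
  `ξ ↦ ξ^(p^e)` for some `e ≥ 0` and preserve `Irr(B)`. It acts on `Irr_0(B)` and `Irr_0(b)` through `𝓗_B`. An
  `𝓗_B`-equivariant bijection exists if and only if `x.kG K = x.kN K` for all `K ⊆ HB x` (Burnside).

Theorem. Let `P` be a class of data `(G, D, b)` closed under `(G, D, b) ↦ (G × G, D × D, b ⊗ b)`. Then
`x.kG K ≤ x.kN K` for all `x` in `P` and `K ⊆ HB x` if and only if for all `ε > 0` there is `C` such that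
`x.kG K ≤ C |G|^ε x.kN K` for all these `x`, `K`. The same holds for `≥`, and so for the equality.
-/

set_option autoImplicit false

namespace Pool.Agent.Results.MP_7f1e7e_al.Asymptotic

open Pool.Agent.X27.Chr Pool.Agent.Helper884.IC

/-- The automorphisms `τ` of `ℂ` with `τ(ξ) = ξ^(p^e)` on the roots of unity of order prime to `p`, for some `e`. -/
def NavH (p : ℕ) : Set (ℂ ≃+* ℂ) :=
  {τ | ∃ e : ℕ, ∀ (m : ℕ) (ξ : ℂ), ¬ p ∣ m → ξ ^ m = 1 → τ ξ = ξ ^ p ^ e}

/-- The elements of `NavH p` which stabilise the block `B` of `G`. -/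
def HB {p : ℕ} {M : Ideal (integralClosure ℤ ℂ)} (x : Dat p M) : Set (ℂ ≃+* ℂ) :=
  {τ | τ ∈ NavH p ∧ ∀ chi : x.G → ℂ,
    chi ∈ Blk M (lam x.D x.psi) ↔ (fun g => τ (chi g)) ∈ Blk M (lam x.D x.psi)}

theorem hb_sq {p : ℕ} [hp : Fact p.Prime] {M : Ideal (integralClosure ℤ ℂ)} (x : Dat p M) : HB x ⊆ HB x.sq := by
  rintro τ ⟨h1, h2⟩
  refine ⟨h1, fun phi => ?_⟩
  have hl : lam x.sq.D x.sq.psi = bx (lam x.D x.psi) (lam x.D x.psi) := lam_prod x.D x.D x.psi x.psi
  have hb : ∀ {a b : x.G → ℂ}, IsIrrChar a → IsIrrChar b →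
      (bx a b ∈ Blk M (bx (lam x.D x.psi) (lam x.D x.psi)) ↔
        a ∈ Blk M (lam x.D x.psi) ∧ b ∈ Blk M (lam x.D x.psi)) := fun ha hb =>
    blk_bx (lam_one x.ok.2.1) (lam_one x.ok.2.1) (fun g => lam_integral x.ok.2.1 g) ha hb
  rw [hl]
  constructor
  · intro h
    obtain ⟨a, b, ha, hb', hab⟩ := irr_prod_surj (G := x.G) (H := x.G) h.1
    rw [hab] at h ⊢
    obtain ⟨h3, h4⟩ := (hb ha hb').1 h
    have h5 := (h2 a).1 h3
    have h6 := (h2 b).1 h4
    have h7 : (fun g : x.G × x.G => τ (bx a b g)) = bx (fun g => τ (a g)) (fun g => τ (b g)) := by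
      funext g
      exact map_mul τ _ _
    exact h7 ▸ (hb h5.1 h6.1).2 ⟨h5, h6⟩
  · intro h
    obtain ⟨a, b, ha, hb', hab⟩ := irr_prod_surj (G := x.G) (H := x.G) h.1
    rw [hab] at h
    obtain ⟨h3, h4⟩ := (hb ha hb').1 h
    have h5 : (fun g => τ.symm (a g)) ∈ Blk M (lam x.D x.psi) := by
      rw [h2]
      simpa using h3
    have h6 : (fun g => τ.symm (b g)) ∈ Blk M (lam x.D x.psi) := by
      rw [h2]
      simpa using h4
    have h7 : phi = bx (fun g => τ.symm (a g)) (fun g => τ.symm (b g)) := by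
      funext g
      have h8 := congrFun hab g
      change τ (phi g) = a g.1 * b g.2 at h8
      change phi g = τ.symm (a g.1) * τ.symm (b g.2)
      rw [← map_mul, ← h8, RingEquiv.symm_apply_apply]
    rw [h7]
    exact (hb h5.1 h6.1).2 ⟨h5, h6⟩

theorem hb_powers {p : ℕ} [hp : Fact p.Prime] {M : Ideal (integralClosure ℤ ℂ)} (P : Dat p M → Prop)
    (hP : ∀ x, P x → P x.sq) (K : Set (ℂ ≃+* ℂ)) (x : Dat p M) (hx : P x) (hK : K ⊆ HB x) (n : ℕ) :
    ∃ y : Dat p M, (P y ∧ K ⊆ HB y) ∧ Nat.card y.G = Nat.card x.G ^ 2 ^ n ∧ y.kG K = x.kG K ^ 2 ^ n ∧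
      y.kN K = x.kN K ^ 2 ^ n :=
  Dat.powers K (fun y => P y ∧ K ⊆ HB y) (fun y hy => ⟨hP y hy.1, hy.2.trans (hb_sq y)⟩) x ⟨hx, hK⟩ n

theorem result (p : ℕ) (hp : Fact p.Prime) (M : Ideal (integralClosure ℤ ℂ)) (_ : M.IsMaximal)
    (_ : (p : integralClosure ℤ ℂ) ∈ M) (P : Dat p M → Prop) (hP : ∀ x, P x → P x.sq) :
    ((∀ x, P x → ∀ K, K ⊆ HB x → x.kG K ≤ x.kN K) ↔ ∀ ε : ℝ, 0 < ε → ∃ C : ℝ, ∀ x, P x →
      ∀ K, K ⊆ HB x → (x.kG K : ℝ) ≤ C * (Nat.card x.G : ℝ) ^ ε * x.kN K) ∧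
    ((∀ x, P x → ∀ K, K ⊆ HB x → x.kN K ≤ x.kG K) ↔ ∀ ε : ℝ, 0 < ε → ∃ C : ℝ, ∀ x, P x →
      ∀ K, K ⊆ HB x → (x.kN K : ℝ) ≤ C * (Nat.card x.G : ℝ) ^ ε * x.kG K) := by
  have one : ∀ x : Dat p M, ∀ ε : ℝ, 0 < ε → ∀ a b : ℕ, a ≤ b →
      (a : ℝ) ≤ 1 * (Nat.card x.G : ℝ) ^ ε * b := by
    intro x ε hε a b hab
    have h2 : (1 : ℝ) ≤ (Nat.card x.G : ℝ) ^ ε :=
      Real.one_le_rpow (by exact_mod_cast Nat.card_pos) hε.le
    have h3 : (a : ℝ) ≤ b := by exact_mod_cast hab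
    have h4 : (0 : ℝ) ≤ b := Nat.cast_nonneg _
    nlinarith
  refine ⟨⟨fun h ε hε => ⟨1, fun x hx K hK => one x ε hε _ _ (h x hx K hK)⟩, fun h x hx K hK => ?_⟩,
    ⟨fun h ε hε => ⟨1, fun x hx K hK => one x ε hε _ _ (h x hx K hK)⟩, fun h x hx K hK => ?_⟩⟩
  · refine amplify (g := Nat.card x.G) Nat.card_pos fun ε hε => ?_
    obtain ⟨C, hC⟩ := h ε hε
    refine ⟨C, fun n => ?_⟩
    obtain ⟨y, h1, h2, h3, h4⟩ := hb_powers P hP K x hx hK n
    rw [← h2, ← h3, ← h4]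
    exact hC y h1.1 K h1.2
  · refine amplify (g := Nat.card x.G) Nat.card_pos fun ε hε => ?_
    obtain ⟨C, hC⟩ := h ε hε
    refine ⟨C, fun n => ?_⟩
    obtain ⟨y, h1, h2, h3, h4⟩ := hb_powers P hP K x hx hK n
    rw [← h2, ← h3, ← h4]
    exact hC y h1.1 K h1.2

end Pool.Agent.Results.MP_7f1e7e_al.Asymptotic
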