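import Pool.Agent.X209.AM.Glob

/-!
# The Alperin-McKay-Navarro conjecture and central `p`-subgroups
-/

open Pool.Agent.X209.AM
open Pool.Agent.Y63.NV (IsBlock)

namespace Pool.Agent.Results.MP_7f1e7e_al.CentralCharacters

/-- (1) Let `Z` be a central `p`-subgroup of the finite group `G`, `B` a block of `G`, `D` a defect
group of `B` and `S` a set of automorphisms which stabilise `B`. There is a bijection from `Irr_0(B)`
to `Irr_0(b)`, `b` the Brauer correspondent in `N_G(D)`, which commutes with `S` and preserves the
characters of `Z`, if and only if for each `Y ≤ Z` there is a bijection which commutes with `S` for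
the block of `G/Y` dominated by `B` (with the defect group `D/Y`).
(2) For every set `T` of automorphisms of `ℂ` (for the conjecture, `T = univ`) the following are
equivalent: the conjecture with `HB ∩ T` for all finite groups; for the finite groups such that the
Sylow `p`-subgroup of the centre is cyclic; for all finite groups and with bijections which preserve
the characters of any given central `p`-subgroup. -/
theorem result (p : ℕ) [Fact p.Prime] (F : Type) [Field F] [CharP F p]
    (red : integralClosure ℤ ℂ →+* F) :
    (∀ (G : Type) [Group G] [Finite G] (Z : Subgroup G), Z ≤ Subgroup.center G → IsPGroup p Z →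
      ∀ B : (G → F) → F, IsBlock B → ∀ D : Subgroup G, IsDefGrp p B D →
      ∀ S : Set (ℂ ≃+* ℂ), S ⊆ HB p B →
        (AMN p red B D Z S ↔ ∀ Y : Subgroup G, Y ≤ Z → ∀ _ : Y.Normal,
          ∀ β : (G ⧸ Y → F) → F, IsBlock β → Dom (QuotientGroup.mk' Y) β B →
            AMN p red β (D.map (QuotientGroup.mk' Y)) ⊥ S)) ∧
    ∀ T : Set (ℂ ≃+* ℂ), List.TFAE
      [∀ (G : Type) [Group G] [Finite G] (B : (G → F) → F), IsBlock B →
          ∀ D : Subgroup G, IsDefGrp p B D → AMN p red B D ⊥ (HB p B ∩ T),
       ∀ (G : Type) [Group G] [Finite G] (C : Subgroup G), IsCenP p C → IsCyclic C →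
        ∀ B : (G → F) → F, IsBlock B →
          ∀ D : Subgroup G, IsDefGrp p B D → AMN p red B D ⊥ (HB p B ∩ T),
       ∀ (G : Type) [Group G] [Finite G] (Z : Subgroup G), Z ≤ Subgroup.center G →
        IsPGroup p Z → ∀ B : (G → F) → F, IsBlock B →
          ∀ D : Subgroup G, IsDefGrp p B D → AMN p red B D Z (HB p B ∩ T)] :=
  ⟨fun _ _ _ _ hZ hpZ _ hB _ hD _ hS => block_iff red hZ hpZ hB hD hS, fun T => global red T⟩

end Pool.Agent.Results.MP_7f1e7e_al.CentralCharacters
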